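import Pool.Agent.Helper79.GT.St6

/-!
# Module NUV of project GT (MP_c2d095_lc): numbers of stones and territory
-/

set_option autoImplicit false

namespace Pool.Agent.Helper37.GT

open Pool.Agent.Helper79.GT Pool.Agent.Helper79.GS Pool.Agent.Helper19.SK Pool.Agent.Helper73.DC
open Finset

private theorem col1 (c : Bool) : colN (bn c) = dgt (some c) := by
  cases c <;> simp [colN, bn, dgt]

private theorem col2 (c : Bool) : colN (1 - bn c) = dgt (some (!c)) := by
  cases c <;> simp [colN, bn, dgt]

private theorem dgt_inj {x y : Option Bool} : dgt x = dgt y ↔ x = y := by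
  rcases x with _ | _ | _ <;> rcases y with _ | _ | _ <;> simp [dgt]

private theorem count {n : ℕ} (p : ℕ → Prop) (hp : DecidablePred p) (q : Fin n × Fin n → Prop)
    (h : ∀ i : Fin (n * n), p i.val ↔ q (finProdFinEquiv.symm i)) :
    (∑ v ∈ range (n * n), if p v then 1 else 0) = ({v | q v} : Set (Fin n × Fin n)).ncard := by
  classical
  rw [Finset.sum_range]
  have e1 : ∀ i : Fin (n * n), (if p i.val then 1 else 0 : ℕ) =
      if q (finProdFinEquiv.symm i) then 1 else 0 := by
    intro i
    by_cases hq : q (finProdFinEquiv.symm i)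
    · rw [if_pos hq, if_pos ((h i).2 hq)]
    · rw [if_neg hq, if_neg (fun h' => hq ((h i).1 h'))]
  rw [Finset.sum_congr rfl (fun i _ => e1 i), ← Finset.card_filter, ← Set.ncard_coe_finset]
  have e2 : ({v | q v} : Set (Fin n × Fin n)) =
      finProdFinEquiv.symm '' (↑(univ.filter (fun i : Fin (n * n) =>
        q (finProdFinEquiv.symm i))) : Set (Fin (n * n))) := by
    ext v
    constructor
    · intro hv
      refine ⟨finProdFinEquiv v, ?_, by simp⟩
      rw [Finset.mem_coe, Finset.mem_filter, Equiv.symm_apply_apply]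
      exact ⟨mem_univ _, hv⟩
    · rintro ⟨i, hi, rfl⟩
      rw [Finset.mem_coe, Finset.mem_filter] at hi
      exact hi.2
  rw [e2, Set.ncard_image_of_injective _ finProdFinEquiv.symm.injective]

theorem hNUV (hCOD : StCOD) (hTCH : StTCH) : Pool.Agent.Helper79.GT.StNUV := by
  intro N n hN c P
  obtain ⟨h1, -, -, -⟩ := hCOD n
  obtain ⟨-, h2⟩ := hTCH N n hN
  have hdg := (h1 P).2
  constructor
  · unfold numN num
    exact count _ _ _ fun i => by rw [hdg i, col1, dgt_inj]
  · unfold terN terr
    refine count _ _ _ fun i => ?_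
    rw [hdg i, col1, col2, h2, h2]
    have e0 : dgt (P (finProdFinEquiv.symm i)) = 0 ↔ P (finProdFinEquiv.symm i) = none := by
      have : (0 : ℕ) = dgt none := rfl
      rw [this, dgt_inj]
    rw [e0]
    unfold Encl
    simp only [dgt_inj]
    push Not
    rfl

end Pool.Agent.Helper37.GT
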