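import Pool.Agent.Helper79.GT.St2

/-!
# Module SML of project GT (MP_c2d095_lc): the game and the game in the window
-/

set_option autoImplicit false

namespace Pool.Agent.Helper37.GT

open Pool.Agent.Helper79.GT Pool.Agent.Helper79.GS Pool.Agent.Helper19.SK

/-- the player `c`, to move, wins -/
private def Bc {P : Type} (A : Gm P) (sk : Bool) (c : Bool) (H : Set (Bool × P)) (ps : Bool) (b : P)
    (d : ℤ) : Prop :=
  if c = true then BWg A sk H ps true b d else ¬ BWg A sk H ps false b d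

/-- the player `c` wins at the end -/
private def ah {P : Type} (A : Gm P) (c : Bool) (b : P) (d : ℤ) : Prop :=
  if c = true then 0 < A.sc b d else ¬ 0 < A.sc b d

private theorem bt_iff {P : Type} (A : Gm P) (sk : Bool) (H : Set (Bool × P)) (ps : Bool) (b : P)
    (d : ℤ) : BWg A sk H ps true b d ↔ (ps = true ∧ 0 < A.sc b d) ∨
      (ps = false ∧ BWg A sk (insert (false, b) H) true false b d) ∨
      ∃ b', A.mv true b b' ∧ okk sk true b' H ∧
        BWg A sk (insert (false, b') H) false false b' (d + A.cp true b b') := by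
  constructor
  · intro h
    cases h with
    | stop _ _ _ h => exact Or.inl ⟨rfl, h⟩
    | pass _ _ _ h => exact Or.inr (Or.inl ⟨rfl, h⟩)
    | move _ _ _ b' _ h1 h2 h3 => exact Or.inr (Or.inr ⟨b', h1, h2, h3⟩)
  · rintro (⟨rfl, h⟩ | ⟨rfl, h⟩ | ⟨b', h1, h2, h3⟩)
    · exact BWg.stop H b d h
    · exact BWg.pass H b d h
    · exact BWg.move H ps b b' d h1 h2 h3

private theorem bf_iff {P : Type} (A : Gm P) (sk : Bool) (H : Set (Bool × P)) (ps : Bool) (b : P)
    (d : ℤ) : BWg A sk H ps false b d ↔ (ps = true → 0 < A.sc b d) ∧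
      (ps = false → BWg A sk (insert (true, b) H) true true b d) ∧
      ∀ b', A.mv false b b' → okk sk false b' H →
        BWg A sk (insert (true, b') H) false true b' (d + A.cp false b b') := by
  constructor
  · intro h
    cases h with
    | white _ _ _ _ h1 h2 h3 => exact ⟨h1, h2, h3⟩
  · rintro ⟨h1, h2, h3⟩
    exact BWg.white H ps b d h1 h2 h3

/-- symmetric form of the game -/
private theorem bc_iff {P : Type} (A : Gm P) (sk c : Bool) (H : Set (Bool × P)) (ps : Bool) (b : P)
    (d : ℤ) : Bc A sk c H ps b d ↔ (ps = true ∧ ah A c b d) ∨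
      (ps = false ∧ ¬ Bc A sk (!c) (insert (!c, b) H) true b d) ∨
      ∃ b', A.mv c b b' ∧ okk sk c b' H ∧
        ¬ Bc A sk (!c) (insert (!c, b') H) false b' (d + A.cp c b b') := by
  cases c
  · simp only [Bc, ah, Bool.false_eq_true, if_false, Bool.not_false, if_true]
    rw [bf_iff]
    constructor
    · intro h
      by_contra hcon
      push Not at hcon
      obtain ⟨h1, h2, h3⟩ := hcon
      exact h ⟨h1, h2, h3⟩
    · rintro (⟨h1, h2⟩ | ⟨h1, h2⟩ | ⟨b', h1, h2, h3⟩) ⟨g1, g2, g3⟩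
      · exact h2 (g1 h1)
      · exact h2 (g2 h1)
      · exact h3 (g3 b' h1 h2)
  · simp only [Bc, ah, if_true, Bool.not_true, Bool.false_eq_true, if_false, not_not]
    rw [bt_iff]

private theorem mw_iff {P : Type} [Finite P] (A : Arena P) (sk : Bool) (H : Set (Bool × P))
    (ps c : Bool) (b : P) : MWs A sk H ps c b ↔ (ps = true ∧ ahead A c b) ∨
      (ps = false ∧ ¬ MWs A sk (insert (!c, b) H) true (!c) b) ∨
      ∃ b', A.mv c b b' ∧ okk sk c b' H ∧ ¬ MWs A sk (insert (!c, b') H) false (!c) b' := by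
  conv_lhs => rw [MWs]
  simp only [exists_prop]

private theorem insert_lt {P : Type} [Finite P] (H : Set P) (b : P) (hb : b ∉ H) :
    ((insert b H)ᶜ).ncard < (Hᶜ).ncard := by
  refine Set.ncard_lt_ncard ?_ (Set.toFinite _)
  exact ⟨fun x hx hxH => hx (Or.inr hxH), fun hcon => hcon (show b ∈ Hᶜ from hb) (Or.inl rfl)⟩

private theorem insert_le {P : Type} [Finite P] (H : Set P) (b : P) :
    ((insert b H)ᶜ).ncard ≤ (Hᶜ).ncard :=
  Set.ncard_le_ncard (fun _ hx hxH => hx (Or.inr hxH)) (Set.toFinite _)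

private theorem okk_not {P : Type} {sk c : Bool} {b' : P} {H : Set (Bool × P)}
    (h : okk sk c b' H) : (!c, b') ∉ H := by
  unfold okk at h
  split_ifs at h with h2
  · exact h
  · exact h _

section

variable {P : Type} [Finite P] (A : Gm P) (D : Bool → Bool → P → P → Prop) (g M B : ℕ) (d₀ : ℤ)

/-- a declared win in the window -/
private theorem inr_lose (sk : Bool) (H : Set (Bool × ((P × Fin M) ⊕ Bool))) (c : Bool) :
    ¬ MWs (wA A D g M B d₀) sk H false (!c) (Sum.inr c) := by
  rw [mw_iff]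
  rintro (⟨h, -⟩ | ⟨-, h⟩ | ⟨y, h, -⟩)
  · exact absurd h (by simp)
  · apply h
    rw [Bool.not_not, mw_iff]
    refine Or.inl ⟨rfl, ?_⟩
    cases c
    · simp [ahead, wA]
    · simp [ahead, wA]
  · exact h

private theorem ahead_iff (hg : 1 ≤ g) (c : Bool) (a : P × Fin M) :
    ahead (wA A D g M B d₀) c (Sum.inl a) ↔ ah A c a.1 (d₀ - B + a.2.val) := by
  have hg' : (0 : ℤ) < g := by exact_mod_cast hg
  have e1 : 0 < (wA A D g M B d₀).s (Sum.inl a) ↔ 0 < A.sc a.1 (d₀ - B + a.2.val) := by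
    have e2 : (wA A D g M B d₀).s (Sum.inl a) =
      -4 * (-(A.sc a.1 (d₀ - B + a.2.val)) / (g : ℤ)) := rfl
    rw [e2]
    have e3 := Int.ediv_lt_iff_lt_mul (a := -(A.sc a.1 (d₀ - B + a.2.val))) (b := 0) hg'
    constructor
    · intro h
      have h1 : -(A.sc a.1 (d₀ - B + a.2.val)) / (g : ℤ) < 0 := by linarith
      have h2 := e3.1 h1
      linarith
    · intro h
      have h1 := e3.2 (by linarith)
      linarith
  unfold ahead ah
  rw [e1]

/-- the game in the window -/
private theorem win_iff (sk : Bool) (hg : 1 ≤ g) (H' : Set (Bool × ((P × Fin M) ⊕ Bool)))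
    (h4 : ∀ s c, (s, Sum.inr c) ∉ H') (ps c : Bool) (a : P × Fin M) :
    MWs (wA A D g M B d₀) sk H' ps c (Sum.inl a) ↔
      (ps = true ∧ ah A c a.1 (d₀ - B + a.2.val)) ∨
      (ps = false ∧ ¬ MWs (wA A D g M B d₀) sk (insert (!c, Sum.inl a) H') true (!c) (Sum.inl a)) ∨
      (∃ b', A.mv c a.1 b' ∧ ¬ A.mv (!c) b' a.1 ∧ D true c a.1 b') ∨
      ∃ a' : P × Fin M, und A D c a.1 a'.1 ∧ (a'.2.val : ℤ) = a.2.val + A.cp c a.1 a'.1 ∧
        okk sk c (Sum.inl a' : (P × Fin M) ⊕ Bool) H' ∧
        ¬ MWs (wA A D g M B d₀) sk (insert (!c, Sum.inl a') H') false (!c) (Sum.inl a') := by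
  rw [mw_iff, ahead_iff A D g M B d₀ hg]
  constructor
  · rintro (h | h | ⟨y, h1, h2, h3⟩)
    · exact Or.inl h
    · exact Or.inr (Or.inl h)
    · rcases y with a' | c'
      · exact Or.inr (Or.inr (Or.inr ⟨a', h1.1, h1.2, h2, h3⟩))
      · exact Or.inr (Or.inr (Or.inl h1.2))
  · rintro (h | h | h | ⟨a', h1, h2, h3, h4⟩)
    · exact Or.inl h
    · exact Or.inr (Or.inl h)
    · refine Or.inr (Or.inr ⟨Sum.inr c, ⟨rfl, h⟩, ?_, inr_lose A D g M B d₀ sk _ c⟩)
      unfold okk
      split_ifs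
      · exact h4 _ _
      · exact fun s => h4 _ _
    · exact Or.inr (Or.inr ⟨Sum.inl a', ⟨h1, h2⟩, h3, h4⟩)

end

private theorem sound_true {P : Type} {A : Gm P} {sk c : Bool} {X : Set (Bool × P)} {b : P} {d : ℤ}
    (h : BWg A sk X false (!c) b d ↔ c = true) : ¬ Bc A sk (!c) X false b d := by
  cases c
  · simp only [Bool.not_false, Bool.false_eq_true, iff_false] at h
    simpa [Bc] using h
  · simp only [Bool.not_true, iff_true] at h
    simpa [Bc] using h

private theorem sound_false {P : Type} {A : Gm P} {sk c : Bool} {X : Set (Bool × P)} {b : P} {d : ℤ}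
    (h : BWg A sk X false (!c) b d ↔ c = false) : Bc A sk (!c) X false b d := by
  cases c
  · simp only [Bool.not_false, iff_true] at h
    simpa [Bc] using h
  · simp only [Bool.not_true, Bool.true_eq_false, iff_false] at h
    simpa [Bc] using h

theorem hSML (hINV : StINV) : Pool.Agent.Helper79.GT.StSML := by
  intro P _ A D pt g N B R d₀ sk H₀ c₀ b₀ hK hN hBd hS
  obtain ⟨hstart, hstep⟩ := hINV P A D pt g N B R d₀ sk H₀ hK hN b₀ hBd
  have hg := hK.gp
  have main : ∀ n : ℕ, ∀ (H : Set (Bool × P)) (H' : Set (Bool × ((P × Fin (2 * B + 1)) ⊕ Bool)))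
      (ps c : Bool) (a : P × Fin (2 * B + 1)),
      2 * (Hᶜ).ncard + (if ps = true then 0 else 1) ≤ n →
      Inv A D sk g (2 * B + 1) B d₀ H₀ (b₀, ⟨B, by omega⟩) H H' a →
      Pl A sk D H₀ c₀ b₀ d₀ H ps c a.1 (d₀ - B + a.2.val) →
      (Bc A sk c H ps a.1 (d₀ - B + a.2.val) ↔
        MWs (wA A D g (2 * B + 1) B d₀) sk H' ps c (Sum.inl a)) := by
    intro n
    induction n using Nat.strong_induction_on with
    | _ n ih =>
      intro H H' ps c a hn hI hP
      obtain ⟨hpass, hmove⟩ := hstep H H' a hI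
      -- the pass
      have h1 : ps = false → (Bc A sk (!c) (insert (!c, a.1) H) true a.1 (d₀ - B + a.2.val) ↔
          MWs (wA A D g (2 * B + 1) B d₀) sk (insert (!c, Sum.inl a) H') true (!c) (Sum.inl a)) := by
        rintro rfl
        have h0 : 2 * (Hᶜ).ncard + 1 ≤ n := by simpa using hn
        have h2 := insert_le H (!c, a.1)
        exact ih (2 * ((insert (!c, a.1) H)ᶜ).ncard) (by omega) _ _ true (!c) a (by simp)
          (hpass c) (Pl.pass H c a.1 _ hP)
      -- the placements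
      have h2 : ∀ b', und A D c a.1 b' → ∃ j : Fin (2 * B + 1),
          (j.val : ℤ) = a.2.val + A.cp c a.1 b' ∧
          (okk sk c b' H ↔ okk sk c (Sum.inl (b', j) : (P × Fin (2 * B + 1)) ⊕ Bool) H') ∧
          (okk sk c b' H → (Bc A sk (!c) (insert (!c, b') H) false b'
            (d₀ - B + a.2.val + A.cp c a.1 b') ↔
            MWs (wA A D g (2 * B + 1) B d₀) sk (insert (!c, Sum.inl (b', j)) H') false (!c)
              (Sum.inl (b', j)))) := by
        intro b' hu
        obtain ⟨j, hj, -, hok, hInv⟩ := hmove c b' hu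
        refine ⟨j, hj, hok, fun hk => ?_⟩
        have e1 : d₀ - B + a.2.val + A.cp c a.1 b' = d₀ - B + j.val := by
          rw [hj]
          ring
        have h0 := insert_lt H (!c, b') (okk_not hk)
        have hP' := Pl.move H ps c a.1 b' _ hP hu hk
        rw [e1] at hP' ⊢
        exact ih (2 * ((insert (!c, b') H)ᶜ).ncard + 1) (by split_ifs at hn <;> omega) _ _
          false (!c) (b', j) (by simp) (hInv hk) hP'
      rw [bc_iff, win_iff A D g (2 * B + 1) B d₀ sk hg H' hI.i4]
      constructor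
      · rintro (⟨h, h'⟩ | ⟨h, h'⟩ | ⟨b', ha, hb, hc⟩)
        · exact Or.inl ⟨h, h'⟩
        · exact Or.inr (Or.inl ⟨h, fun hx => h' ((h1 h).2 hx)⟩)
        · by_cases hu : und A D c a.1 b'
          · obtain ⟨j, hj, hok, hm⟩ := h2 b' hu
            exact Or.inr (Or.inr (Or.inr ⟨(b', j), hu, hj, hok.1 hb, fun hx => hc ((hm hb).2 hx)⟩))
          · have hu' : ¬ A.mv (!c) b' a.1 ∧ ∃ i, D i c a.1 b' := by
              constructor
              · intro hx
                exact hu ⟨ha, Or.inl hx⟩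
              · by_contra hx
                push Not at hx
                exact hu ⟨ha, Or.inr hx⟩
            obtain ⟨hnr, i, hi⟩ := hu'
            obtain ⟨hs1, hs2⟩ := hS H ps c a.1 _ hP b' ha hnr
            cases i
            · exact absurd (sound_false (hs2 hi hb)) hc
            · exact Or.inr (Or.inr (Or.inl ⟨b', ha, hnr, hi⟩))
      · rintro (⟨h, h'⟩ | ⟨h, h'⟩ | ⟨b', ha, hb, hc⟩ | ⟨a', ha, hb, hc, hd⟩)
        · exact Or.inl ⟨h, h'⟩
        · exact Or.inr (Or.inl ⟨h, fun hx => h' ((h1 h).1 hx)⟩)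
        · obtain ⟨hs1, -⟩ := hS H ps c a.1 _ hP b' ha hb
          obtain ⟨hk, hw⟩ := hs1 hc
          exact Or.inr (Or.inr ⟨b', ha, hk, sound_true hw⟩)
        · obtain ⟨j, hj, hok, hm⟩ := h2 a'.1 ha
          have e1 : a' = (a'.1, j) := by
            refine Prod.ext rfl ?_
            apply Fin.ext
            have : ((a'.2.val : ℕ) : ℤ) = (j.val : ℤ) := by rw [hb, hj]
            exact_mod_cast this
          rw [e1] at hc hd
          have hk := hok.2 hc
          exact Or.inr (Or.inr ⟨a'.1, ha.1, hk, fun hx => hd ((hm hk).1 hx)⟩)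
  have hPs : Pl A sk D H₀ c₀ b₀ d₀ (insert (c₀, b₀) H₀) false c₀ b₀ (d₀ - B + (B : ℕ)) := by
    have e1 : d₀ - B + ((B : ℕ) : ℤ) = d₀ := by ring
    rw [e1]
    exact Pl.start
  have hfin := main _ _ _ false c₀ (b₀, ⟨B, by omega⟩) le_rfl (hstart c₀) hPs
  have e1 : d₀ - B + ((B : ℕ) : ℤ) = d₀ := by ring
  simp only [e1] at hfin
  cases c₀
  · simp only [Bool.false_eq_true, if_false]
    simp only [Bc, Bool.false_eq_true, if_false] at hfin
    rw [← hfin, not_not]
  · simp only [if_true]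
    simp only [Bc, if_true] at hfin
    exact hfin

end Pool.Agent.Helper37.GT
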